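import Pool.Agent.Y659.MPS.Stm

/-!
# Basis of the small powers (project MPS, `St_Basis`)
-/

set_option autoImplicit false

namespace Pool.Agent.Y297.MPS

open Matrix
open Pool.Agent.Results.MP_8bfff4_mp.ExactValue
open Pool.Agent.Y659.MPS

variable {D : ℕ}

/-- the words with one letter `w` -/
def vv (X w : Matrix (Fin D) (Fin D) ℂ) (n j : ℕ) : Matrix (Fin D) (Fin D) ℂ :=
  if j < n then X ^ (n - 1 - j) * w * X ^ j else X ^ n

/-- their span -/
def SS (X w : Matrix (Fin D) (Fin D) ℂ) (n : ℕ) : Submodule ℂ (Matrix (Fin D) (Fin D) ℂ) :=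
  Submodule.span ℂ (Set.range fun i : Fin (n + 1) => vv X w n i)

theorem vv_mem (X w : Matrix (Fin D) (Fin D) ℂ) {n j : ℕ} (h : j < n + 1) :
    vv X w n j ∈ SS X w n := Submodule.subset_span ⟨⟨j, h⟩, rfl⟩

theorem X_vv (X w : Matrix (Fin D) (Fin D) ℂ) {n j : ℕ} (h : j < n + 1) :
    X * vv X w n j ∈ SS X w (n + 1) := by
  by_cases hj : j < n
  · have h1 : X * vv X w n j = vv X w (n + 1) j := by
      unfold vv
      rw [if_pos hj, if_pos (by omega), ← mul_assoc, ← mul_assoc, ← pow_succ']
      congr 3
      omega
    rw [h1]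
    exact vv_mem X w (by omega)
  · have h1 : X * vv X w n j = vv X w (n + 1) (n + 1) := by
      unfold vv
      rw [if_neg hj, if_neg (by omega), ← pow_succ']
    rw [h1]
    exact vv_mem X w (by omega)

theorem vv_X (X w : Matrix (Fin D) (Fin D) ℂ) {n j : ℕ} (h : j < n + 1) :
    vv X w n j * X ∈ SS X w (n + 1) := by
  by_cases hj : j < n
  · have h1 : vv X w n j * X = vv X w (n + 1) (j + 1) := by
      unfold vv
      rw [if_pos hj, if_pos (by omega), mul_assoc, ← pow_succ]
      congr 3
      omega
    rw [h1]
    exact vv_mem X w (by omega)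
  · have h1 : vv X w n j * X = vv X w (n + 1) (n + 1) := by
      unfold vv
      rw [if_neg hj, if_neg (by omega), ← pow_succ]
    rw [h1]
    exact vv_mem X w (by omega)

theorem step {X w : Matrix (Fin D) (Fin D) ℂ} {W : Submodule ℂ (Matrix (Fin D) (Fin D) ℂ)} {n : ℕ}
    (h : W ^ n ≤ SS X w n) : ln X * W ^ n ⊔ W ^ n * ln X ≤ SS X w (n + 1) := by
  refine sup_le ?_ ?_
  · rw [Submodule.mul_le]
    intro a ha b hb
    obtain ⟨c, rfl⟩ := Submodule.mem_span_singleton.mp ha
    rw [smul_mul_assoc]
    refine Submodule.smul_mem _ _ ?_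
    have hb' := h hb
    refine Submodule.span_induction (p := fun b _ => X * b ∈ SS X w (n + 1)) ?_ ?_ ?_ ?_ hb'
    · rintro _ ⟨i, rfl⟩
      exact X_vv X w i.2
    · rw [mul_zero]
      exact Submodule.zero_mem _
    · intro u v _ _ hu hv
      rw [mul_add]
      exact Submodule.add_mem _ hu hv
    · intro c u _ hu
      rw [mul_smul_comm]
      exact Submodule.smul_mem _ _ hu
  · rw [Submodule.mul_le]
    intro b hb a ha
    obtain ⟨c, rfl⟩ := Submodule.mem_span_singleton.mp ha
    rw [mul_smul_comm]
    refine Submodule.smul_mem _ _ ?_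
    have hb' := h hb
    refine Submodule.span_induction (p := fun b _ => b * X ∈ SS X w (n + 1)) ?_ ?_ ?_ ?_ hb'
    · rintro _ ⟨i, rfl⟩
      exact vv_X X w i.2
    · rw [zero_mul]
      exact Submodule.zero_mem _
    · intro u v _ _ hu hv
      rw [add_mul]
      exact Submodule.add_mem _ hu hv
    · intro c u _ hu
      rw [smul_mul_assoc]
      exact Submodule.smul_mem _ _ hu

theorem pow_le {X w : Matrix (Fin D) (Fin D) ℂ} {W : Submodule ℂ (Matrix (Fin D) (Fin D) ℂ)}
    (hF : Flat W X) (hW : W ≤ Submodule.span ℂ {X, w}) : ∀ n, n ≤ D → W ^ n ≤ SS X w n := by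
  intro n
  induction n with
  | zero =>
    intro _
    rw [Submodule.pow_zero, Submodule.one_eq_span, Submodule.span_le]
    rintro _ rfl
    have h := vv_mem X w (show 0 < 0 + 1 by omega)
    simpa [vv] using h
  | succ n ih =>
    intro hn
    rcases Nat.eq_zero_or_pos n with h0 | h0
    · subst h0
      rw [zero_add, pow_one]
      refine hW.trans ?_
      rw [Submodule.span_le]
      intro A hA
      rcases hA with rfl | hA
      · have h := vv_mem A w (show 1 < 1 + 1 by omega)
        simpa [vv] using h
      · rw [Set.mem_singleton_iff] at hA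
        subst hA
        have h := vv_mem X A (show 0 < 1 + 1 by omega)
        simpa [vv] using h
    · have h1 : ln X * W ^ n ⊔ W ^ n * ln X ≤ W ^ (n + 1) := by
        have hX : ln X ≤ W := by
          unfold ln
          rw [Submodule.span_le]
          rintro _ rfl
          exact hF.hX
        refine sup_le ?_ ?_
        · rw [pow_succ']
          exact mul_le_mul' hX le_rfl
        · rw [pow_succ]
          exact mul_le_mul' le_rfl hX
      have h2 : ln X * W ^ n ⊔ W ^ n * ln X = W ^ (n + 1) := by
        apply Submodule.eq_of_le_of_finrank_eq h1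
        have e1 := hF.he n h0 (by omega)
        have e2 := hF.hd (n + 1) hn
        unfold fr at e1 e2
        omega
      rw [← h2]
      exact step (ih (by omega))

theorem Basis : St_Basis := by
  intro D W X w hF hw hW n hn
  have h1 := pow_le hF hW n hn
  have hsum : ∀ (c : Fin (n + 1) → ℂ), ∑ i, c i • vv X w n i =
      ∑ j ∈ Finset.range n, (if h : j < n + 1 then c ⟨j, h⟩ else 0) •
        (X ^ (n - 1 - j) * w * X ^ j) + c (Fin.last n) • X ^ n := by
    intro c
    rw [Fin.sum_univ_castSucc, Finset.sum_range]
    congr 1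
    · refine Finset.sum_congr rfl fun i _ => ?_
      have hi := i.2
      rw [dif_pos (by omega : (i : ℕ) < n + 1)]
      unfold vv
      rw [Fin.val_castSucc, if_pos hi]
      rfl
    · unfold vv
      rw [Fin.val_last, if_neg (by omega)]
  refine ⟨?_, ?_⟩
  · intro A hA
    have h2 := h1 hA
    unfold SS at h2
    rw [Submodule.mem_span_range_iff_exists_fun] at h2
    obtain ⟨c, hc⟩ := h2
    rw [hsum] at hc
    exact ⟨_, _, hc.symm⟩
  · intro a b hab
    have hli : LinearIndependent ℂ fun i : Fin (n + 1) => vv X w n i := by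
      rw [linearIndependent_iff_card_le_finrank_span, Fintype.card_fin]
      have e2 := hF.hd n hn
      have e3 := Submodule.finrank_mono h1
      unfold fr at e2
      unfold SS at e3
      rw [e2] at e3
      exact e3
    rw [Fintype.linearIndependent_iff] at hli
    have h3 := hli (fun i => if (i : ℕ) < n then a i else b) (by
      rw [hsum]
      rw [← hab]
      congr 1
      · refine Finset.sum_congr rfl fun j hj => ?_
        rw [Finset.mem_range] at hj
        rw [dif_pos (by omega : j < n + 1), if_pos hj]
      · rw [Fin.val_last, if_neg (by omega)])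
    refine ⟨fun j hj => ?_, ?_⟩
    · have := h3 ⟨j, by omega⟩
      simpa [hj] using this
    · have := h3 (Fin.last n)
      simpa using this

end Pool.Agent.Y297.MPS
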